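import Pool.Agent.W475.BH.Stm

set_option autoImplicit false
set_option maxHeartbeats 1000000

/-! Tools for the counting function `nz`. -/

namespace Pool.Agent.W916.BH

open Complex MeasureTheory Filter Topology
open Pool.Agent.W475.BH

/-- the zeros in a bounded set are finite in number -/
theorem fin_zeros {f : ℂ → ℂ} (hf : Differentiable ℂ f) {z0 : ℂ} (h0 : f z0 ≠ 0) {A : Set ℂ}
    (hA : Bornology.IsBounded A) :
    (A ∩ Function.support (fun z => analyticOrderNatAt f z)).Finite := by
  by_contra hinf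
  have hK : IsCompact (closure A) := hA.isCompact_closure
  obtain ⟨x, _, hx⟩ := Set.Infinite.exists_accPt_of_subset_isCompact hinf hK
    (Set.inter_subset_left.trans subset_closure)
  rw [accPt_iff_frequently] at hx
  have han : AnalyticOnNhd ℂ f Set.univ := fun z _ => hf.analyticAt z
  have h2 : ∃ᶠ z in 𝓝[≠] x, f z = 0 := by
    rw [frequently_nhdsWithin_iff]
    refine hx.mono (fun z hz => ⟨?_, hz.1⟩)
    exact apply_eq_zero_of_analyticOrderNatAt_ne_zero hz.2.2
  have h3 := han.eqOn_zero_of_preconnected_of_frequently_eq_zero isPreconnected_univ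
    (Set.mem_univ x) h2
  exact h0 (h3 (Set.mem_univ z0))

theorem nz_union {f : ℂ → ℂ} (hf : Differentiable ℂ f) {z0 : ℂ} (h0 : f z0 ≠ 0) {A B : Set ℂ}
    (hA : Bornology.IsBounded A) (hB : Bornology.IsBounded B) (hAB : Disjoint A B) :
    nz f (A ∪ B) = nz f A + nz f B :=
  finsum_mem_union' hAB (fin_zeros hf h0 hA) (fin_zeros hf h0 hB)

theorem nz_empty (f : ℂ → ℂ) : nz f ∅ = 0 := finsum_mem_empty

/-- invariance under affine maps and constant factors -/
theorem nz_affine {f : ℂ → ℂ} (hf : Differentiable ℂ f) (α : ℂ) {l c : ℂ} (hl : l ≠ 0)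
    (hc : c ≠ 0) (A : Set ℂ) :
    nz (fun z => f (α + l * z) / c) A = nz f ((fun z => α + l * z) '' A) := by
  unfold nz
  rw [finsum_mem_image]
  · refine finsum_mem_congr rfl (fun z _ => ?_)
    have h1 : analyticOrderAt (fun z => f (α + l * z) / c) z = analyticOrderAt f (α + l * z) := by
      have e : (fun z => f (α + l * z) / c) = (fun _ => c⁻¹) * (f ∘ (fun z => α + l * z)) := by
        funext z; simp [div_eq_inv_mul]
      have hg : Differentiable ℂ (fun z : ℂ => α + l * z) := by fun_prop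
      rw [e, analyticOrderAt_mul analyticAt_const ((hf.comp hg).analyticAt z)]
      have h2 : analyticOrderAt (fun _ : ℂ => c⁻¹) z = 0 := by
        rw [analyticOrderAt_eq_zero]
        exact Or.inr (inv_ne_zero hc)
      rw [h2, zero_add, analyticOrderAt_comp_of_deriv_ne_zero (hg.analyticAt z)]
      have h3 : deriv (fun z : ℂ => α + l * z) z = l := by
        have : HasDerivAt (fun z : ℂ => α + l * z) (l * 1) z :=
          ((hasDerivAt_id z).const_mul l).const_add α
        rw [this.deriv, mul_one]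
      rw [h3]
      exact hl
    unfold analyticOrderNatAt
    rw [h1]
  · intro z _ w _ h
    have h1 : l * z = l * w := by
      have : α + l * z = α + l * w := h
      exact add_left_cancel this
    exact mul_left_cancel₀ hl h1

/-- a horizontal strip piece -/
def Wd (a b c d : ℝ) : Set ℂ := {z | a ≤ z.re ∧ z.re ≤ b ∧ c < z.im ∧ z.im ≤ d}

theorem Wd_bdd (a b c d : ℝ) : Bornology.IsBounded (Wd a b c d) := by
  refine (Metric.isBounded_closedBall (x := (0 : ℂ)) (r := |a| + |b| + (|c| + |d|))).subset ?_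
  intro z hz
  obtain ⟨h1, h2, h3, h4⟩ := hz
  rw [mem_closedBall_zero_iff]
  refine (Complex.norm_le_abs_re_add_abs_im z).trans ?_
  have e1 : |z.re| ≤ |a| + |b| := by
    rw [abs_le]
    constructor
    · linarith [neg_abs_le a, abs_nonneg b]
    · linarith [le_abs_self b, abs_nonneg a]
  have e2 : |z.im| ≤ |c| + |d| := by
    rw [abs_le]
    constructor
    · linarith [neg_abs_le c, abs_nonneg d]
    · linarith [le_abs_self d, abs_nonneg c]
  linarith

theorem nz_split {f : ℂ → ℂ} (hf : Differentiable ℂ f) {z0 : ℂ} (h0 : f z0 ≠ 0)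
    (a b c d e : ℝ) (h1 : c ≤ d) (h2 : d ≤ e) :
    nz f (Wd a b c e) = nz f (Wd a b c d) + nz f (Wd a b d e) := by
  rw [← nz_union hf h0 (Wd_bdd _ _ _ _) (Wd_bdd _ _ _ _)]
  · congr 1
    ext z
    simp only [Wd, Set.mem_setOf_eq, Set.mem_union]
    constructor
    · rintro ⟨p, q, r, s⟩
      rcases le_or_gt z.im d with h | h
      · exact Or.inl ⟨p, q, r, h⟩
      · exact Or.inr ⟨p, q, h, s⟩
    · rintro (⟨p, q, r, s⟩ | ⟨p, q, r, s⟩)
      · exact ⟨p, q, r, s.trans h2⟩
      · exact ⟨p, q, lt_of_le_of_lt h1 r, s⟩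
  · rw [Set.disjoint_left]
    rintro z ⟨_, _, _, h⟩ ⟨_, _, h', _⟩
    linarith

theorem nz_windows {f : ℂ → ℂ} (hf : Differentiable ℂ f) {z0 : ℂ} (h0 : f z0 ≠ 0)
    (a b T l : ℝ) (hl : 0 ≤ l) (J : ℕ) :
    nz f (Wd a b T (T + J * l)) = ∑ j ∈ Finset.range J, nz f (Wd a b (T + j * l) (T + j * l + l)) := by
  induction J with
  | zero =>
    have : Wd a b T (T + (0 : ℕ) * l) = ∅ := by
      ext z
      simp only [Wd, Set.mem_setOf_eq, Set.mem_empty_iff_false, iff_false]
      rintro ⟨_, _, h, h'⟩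
      simp at h'
      linarith
    rw [this, nz_empty]
    simp
  | succ J ih =>
    rw [Finset.sum_range_succ, ← ih, nz_split hf h0 a b T (T + J * l) (T + (J + 1 : ℕ) * l)]
    · congr 2
      push_cast
      congr 1
      ring
    · have : (0 : ℝ) ≤ J * l := by positivity
      linarith
    · push_cast
      nlinarith

/-- scaling of the windows -/
theorem Wd_scale (X1 X2 t l : ℝ) (hl : 0 < l) :
    (fun z : ℂ => I * t + (l : ℂ) * z) '' {z | X1 ≤ z.re ∧ z.re ≤ X2 ∧ 0 < z.im ∧ z.im ≤ 1} =
      Wd (X1 * l) (X2 * l) t (t + l) := by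
  ext w
  simp only [Set.mem_image, Set.mem_setOf_eq, Wd]
  constructor
  · rintro ⟨z, ⟨h1, h2, h3, h4⟩, rfl⟩
    have e1 : (I * t + (l : ℂ) * z).re = l * z.re := by simp
    have e2 : (I * t + (l : ℂ) * z).im = t + l * z.im := by simp
    rw [e1, e2]
    refine ⟨by nlinarith, by nlinarith, by nlinarith, by nlinarith⟩
  · rintro ⟨h1, h2, h3, h4⟩
    refine ⟨⟨w.re / l, (w.im - t) / l⟩, ⟨?_, ?_, ?_, ?_⟩, ?_⟩
    · show X1 ≤ w.re / l
      rw [le_div_iff₀ hl]; exact h1
    · show w.re / l ≤ X2
      rw [div_le_iff₀ hl]; exact h2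
    · show 0 < (w.im - t) / l
      exact div_pos (by linarith) hl
    · show (w.im - t) / l ≤ 1
      rw [div_le_iff₀ hl]; linarith
    · apply Complex.ext
      · simp
        field_simp
      · simp
        field_simp
        ring

end Pool.Agent.W916.BH
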