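import Pool.Agent.W475.BH.Stm

set_option autoImplicit false
set_option maxHeartbeats 1000000

/-! Counting bad windows. -/

namespace Pool.Agent.W916.BH

open Complex MeasureTheory Filter Topology
open Pool.Agent.W475.BH

theorem card_le_len (F : Finset ℕ) (y L : ℝ) (hL : 0 ≤ L) (h : ∀ j ∈ F, y ≤ (j : ℝ) ∧ (j : ℝ) ≤ y + L) :
    (F.card : ℝ) ≤ L + 1 := by
  rcases F.eq_empty_or_nonempty with h0 | h0
  · subst h0; simp; linarith
  · have h1 : F ⊆ Finset.Icc (F.min' h0) (F.max' h0) := by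
      intro j hj
      rw [Finset.mem_Icc]
      exact ⟨Finset.min'_le _ _ hj, Finset.le_max' _ _ hj⟩
    have h2 := Finset.card_le_card h1
    rw [Nat.card_Icc] at h2
    have h3 := (h _ (F.min'_mem h0)).1
    have h4 := (h _ (F.max'_mem h0)).2
    have h5 : F.min' h0 ≤ F.max' h0 := Finset.min'_le _ _ (F.max'_mem h0)
    have h6 : (F.card : ℝ) ≤ ((F.max' h0 : ℕ) : ℝ) + 1 - ((F.min' h0 : ℕ) : ℝ) := by
      have : F.card + F.min' h0 ≤ F.max' h0 + 1 := by omega
      have h7 : ((F.card + F.min' h0 : ℕ) : ℝ) ≤ ((F.max' h0 + 1 : ℕ) : ℝ) := by exact_mod_cast this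
      push_cast at h7
      linarith
    linarith

/-- intervals of bounded multiplicity inside a small set -/
theorem card_intervals (B : Finset ℕ) (s : ℕ → ℝ) (r K V : ℝ) (hr : 0 < r) (hK : 0 ≤ K)
    (hV : 0 ≤ V) (E : Set ℝ) (hE : volume E ≤ ENNReal.ofReal V)
    (hsub : ∀ j ∈ B, Set.Icc (s j) (s j + r) ⊆ E)
    (hmul : ∀ x : ℝ, ∀ F : Finset ℕ, F ⊆ B → (∀ j ∈ F, x ∈ Set.Icc (s j) (s j + r)) →
      (F.card : ℝ) ≤ K) :
    (B.card : ℝ) * r ≤ K * V := by
  classical
  have h1 : ∀ j, volume (Set.Icc (s j) (s j + r)) = ENNReal.ofReal r := by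
    intro j; rw [Real.volume_Icc]; congr 1; ring
  have h2 : ∑ j ∈ B, volume (Set.Icc (s j) (s j + r)) = (B.card : ENNReal) * ENNReal.ofReal r := by
    rw [Finset.sum_congr rfl (fun j _ => h1 j), Finset.sum_const, nsmul_eq_mul]
  have h3 : ∑ j ∈ B, volume (Set.Icc (s j) (s j + r)) =
      ∫⁻ x, ∑ j ∈ B, (Set.Icc (s j) (s j + r)).indicator (fun _ => (1 : ENNReal)) x := by
    rw [lintegral_finsetSum]
    · refine Finset.sum_congr rfl (fun j _ => ?_)
      rw [lintegral_indicator measurableSet_Icc]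
      simp
    · intro j _
      exact measurable_const.indicator measurableSet_Icc
  have h4 : ∫⁻ x, ∑ j ∈ B, (Set.Icc (s j) (s j + r)).indicator (fun _ => (1 : ENNReal)) x ≤
      ∫⁻ x, E.indicator (fun _ => ENNReal.ofReal K) x := by
    refine lintegral_mono (fun x => ?_)
    have e : ∑ j ∈ B, (Set.Icc (s j) (s j + r)).indicator (fun _ => (1 : ENNReal)) x =
        ((B.filter (fun j => x ∈ Set.Icc (s j) (s j + r))).card : ENNReal) := by
      rw [Finset.card_filter]
      push_cast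
      refine Finset.sum_congr rfl (fun j _ => ?_)
      rw [Set.indicator_apply]
    show ∑ j ∈ B, (Set.Icc (s j) (s j + r)).indicator (fun _ => (1 : ENNReal)) x ≤ _
    rw [e]
    by_cases hx : x ∈ E
    · rw [Set.indicator_of_mem hx]
      have := hmul x (B.filter (fun j => x ∈ Set.Icc (s j) (s j + r))) (Finset.filter_subset _ _)
        (fun j hj => (Finset.mem_filter.1 hj).2)
      rw [← ENNReal.ofReal_natCast]
      exact ENNReal.ofReal_le_ofReal this
    · rw [Set.indicator_of_notMem hx]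
      have : B.filter (fun j => x ∈ Set.Icc (s j) (s j + r)) = ∅ := by
        rw [Finset.filter_eq_empty_iff]
        intro j hj hx'
        exact hx (hsub j hj hx')
      rw [this]
      simp
  have h5 : ∫⁻ x, E.indicator (fun _ => ENNReal.ofReal K) x ≤ ENNReal.ofReal K * volume E :=
    lintegral_indicator_const_le _ _
  have h6 : (B.card : ENNReal) * ENNReal.ofReal r ≤ ENNReal.ofReal K * ENNReal.ofReal V := by
    rw [← h2, h3]
    exact (h4.trans h5).trans (by gcongr)
  rw [← ENNReal.ofReal_natCast, ← ENNReal.ofReal_mul (by positivity), ← ENNReal.ofReal_mul hK] at h6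
  exact (ENNReal.ofReal_le_ofReal_iff (by positivity)).1 h6

/-- few bad windows for one band -/
theorem few_bad (hEN : S_EN) (κ a b ω η : ℝ) (hκ : 0 < κ) (ha : 0 < a) (hab : a < b)
    (hb : b < 1 / 2) (hω : 0 < ω) (hη : 0 < η) : ∃ T0 : ℝ, ∀ T : ℝ, T0 ≤ T → ∀ B : Finset ℕ,
    (∀ j ∈ B, (j : ℝ) * Real.log T ≤ T ∧ ∃ s : ℝ, T + j * Real.log T - 4 * Real.log T ≤ s ∧
      s ≤ T + j * Real.log T + 5 * Real.log T ∧ ∀ t lam : ℝ, s ≤ t → t ≤ s + ω * Real.log T →
        a * Real.log T ≤ lam → lam ≤ b * Real.log T → ‖SS κ lam t‖ ≤ T ^ (-(1 / 3) : ℝ)) →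
    (B.card : ℝ) * Real.log T ≤ η * T := by
  classical
  obtain ⟨K, hK⟩ : ∃ K : ℝ, K = 10 + ω / 2 := ⟨_, rfl⟩
  have hKpos : 0 < K := by rw [hK]; positivity
  obtain ⟨η', hη'⟩ : ∃ η' : ℝ, η' = η * ω / (7 * K) := ⟨_, rfl⟩
  have hη'pos : 0 < η' := by rw [hη']; positivity
  obtain ⟨T1, _, hT1⟩ := hEN κ hκ ((3 * a + b) / 4) ((a + 3 * b) / 4) (ω / 4) η' (by linarith)
    (by linarith) (by linarith) (by linarith) hη'pos
  have hlog : Tendsto (fun T : ℝ => Real.log T) atTop atTop := Real.tendsto_log_atTop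
  have hlit : Tendsto (fun T : ℝ => Real.log T / T) atTop (𝓝 0) := by
    have := Real.isLittleO_log_id_atTop.tendsto_div_nhds_zero
    simpa using this
  -- all conditions on T
  have hev : ∀ᶠ T : ℝ in atTop, 2 * T1 ≤ T ∧ 512 ≤ T ∧
      4 * Real.log 2 / (b - a) + Real.log 2 ≤ Real.log T ∧
      (6 + ω) * (Real.log T / T) ≤ 1 / 2 := by
    refine (eventually_ge_atTop _).and ((eventually_ge_atTop _).and
      ((hlog.eventually_ge_atTop _).and ?_))
    have : Tendsto (fun T : ℝ => (6 + ω) * (Real.log T / T)) atTop (𝓝 ((6 + ω) * 0)) :=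
      hlit.const_mul _
    rw [mul_zero] at this
    exact (this.eventually (gt_mem_nhds (by norm_num : (0 : ℝ) < 1 / 2))).mono (fun T h => h.le)
  obtain ⟨T0, hT0⟩ := eventually_atTop.1 hev
  refine ⟨T0, fun T hT B hB => ?_⟩
  obtain ⟨c1, c2, c3, c4⟩ := hT0 T hT
  have hTpos : 0 < T := by linarith
  obtain ⟨l, hl⟩ : ∃ l : ℝ, l = Real.log T := ⟨_, rfl⟩
  rw [← hl] at hB c3 c4 ⊢
  have hlog2 : 0 < Real.log 2 := Real.log_pos (by norm_num)
  have hba : 0 < b - a := by linarith
  have hlb : Real.log 2 ≤ l := by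
    have : 0 < 4 * Real.log 2 / (b - a) := by positivity
    linarith
  have hlpos : 0 < l := by linarith
  have hlba : Real.log 2 ≤ (b - a) / 4 * l := by
    have h1 : 4 * Real.log 2 / (b - a) ≤ l := by linarith
    rw [div_le_iff₀ hba] at h1
    linarith
  have hlT : (6 + ω) * l ≤ T / 2 := by
    have h1 : (6 + ω) * l / T ≤ 1 / 2 := by
      have : (6 + ω) * l / T = (6 + ω) * (l / T) := by ring
      rw [this]; exact c4
    rw [div_le_iff₀ hTpos] at h1
    linarith
  -- the choice of s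
  have hch : ∀ j : ℕ, ∃ s : ℝ, j ∈ B → (T + j * l - 4 * l ≤ s ∧
      s ≤ T + j * l + 5 * l ∧ ∀ t lam : ℝ, s ≤ t → t ≤ s + ω * l →
        a * l ≤ lam → lam ≤ b * l → ‖SS κ lam t‖ ≤ T ^ (-(1 / 3) : ℝ)) := by
    intro j
    by_cases hj : j ∈ B
    · obtain ⟨s, hs⟩ := (hB j hj).2
      exact ⟨s, fun _ => hs⟩
    · exact ⟨0, fun h => absurd h hj⟩
  choose s hs using hch
  -- the exceptional sets
  let Ex : ℝ → Set ℝ := fun T' => {t0 : ℝ | T' ≤ t0 ∧ t0 ≤ 2 * T' ∧ ∀ t lam : ℝ, t0 ≤ t →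
    t ≤ t0 + ω / 4 * Real.log T' →
    (3 * a + b) / 4 * Real.log T' ≤ lam → lam ≤ (a + 3 * b) / 4 * Real.log T' →
      ‖SS κ lam t‖ ≤ T' ^ (-(3 / 10) : ℝ)}
  have hvol : ∀ T', T1 ≤ T' → volume (Ex T') ≤ ENNReal.ofReal (η' * T') := fun T' h => hT1 T' h
  -- membership
  have hmem : ∀ T' : ℝ, T / 2 ≤ T' → T' ≤ 2 * T → ∀ j ∈ B, ∀ x ∈ Set.Icc (s j) (s j + ω / 2 * l),
      T' ≤ x → x ≤ 2 * T' → x ∈ Ex T' := by
    intro T' h1 h2 j hj x hx h3 h4
    obtain ⟨g1, g2, g3⟩ := hs j hj
    have hT'pos : 0 < T' := by linarith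
    have L1 : Real.log T' ≤ l + Real.log 2 := by
      rw [hl, ← Real.log_mul hTpos.ne' (by norm_num)]
      exact Real.log_le_log hT'pos (by linarith)
    have L2 : l - Real.log 2 ≤ Real.log T' := by
      rw [hl, ← Real.log_div hTpos.ne' (by norm_num)]
      exact Real.log_le_log (by linarith) (by linarith)
    refine ⟨h3, h4, ?_⟩
    intro t lam k1 k2 k3 k4
    have m1 : ‖SS κ lam t‖ ≤ T ^ (-(1 / 3) : ℝ) := by
      refine g3 t lam (hx.1.trans k1) ?_ ?_ ?_
      · have : ω / 4 * Real.log T' ≤ ω / 4 * (2 * l) := by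
          gcongr; linarith
        linarith [hx.2]
      · refine le_trans ?_ k3
        have e1 : a * l ≤ (3 * a + b) / 4 * (l - Real.log 2) := by
          have : (3 * a + b) / 4 * Real.log 2 ≤ 1 * Real.log 2 := by
            gcongr; linarith
          nlinarith
        refine e1.trans ?_
        have : 0 < (3 * a + b) / 4 := by linarith
        gcongr
      · refine k4.trans ?_
        have e1 : (a + 3 * b) / 4 * (l + Real.log 2) ≤ b * l := by
          have : (a + 3 * b) / 4 * Real.log 2 ≤ 1 * Real.log 2 := by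
            gcongr; linarith
          nlinarith
        refine le_trans ?_ e1
        have : 0 < (a + 3 * b) / 4 := by linarith
        gcongr
    refine m1.trans ?_
    -- T^(-1/3) ≤ T'^(-3/10)
    have e1 : T ^ (-(1 / 3) : ℝ) ≤ (2 * T) ^ (-(3 / 10) : ℝ) := by
      rw [Real.rpow_neg hTpos.le, Real.rpow_neg (by linarith)]
      apply inv_anti₀ (by positivity)
      rw [Real.mul_rpow (by norm_num) hTpos.le]
      have e2 : T ^ (1 / 3 : ℝ) = T ^ (1 / 30 : ℝ) * T ^ (3 / 10 : ℝ) := by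
        rw [← Real.rpow_add hTpos]; norm_num
      rw [e2]
      have e3 : (2 : ℝ) ^ (3 / 10 : ℝ) ≤ T ^ (1 / 30 : ℝ) := by
        have e4 : (2 : ℝ) ^ (3 / 10 : ℝ) = (512 : ℝ) ^ (1 / 30 : ℝ) := by
          have : (512 : ℝ) = 2 ^ (9 : ℝ) := by norm_num
          rw [this, ← Real.rpow_mul (by norm_num)]
          norm_num
        rw [e4]
        exact Real.rpow_le_rpow (by norm_num) c2 (by norm_num)
      gcongr
    refine e1.trans ?_
    exact Real.rpow_le_rpow_of_nonpos hT'pos h2 (by norm_num)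
  -- the union
  have hsub : ∀ j ∈ B, Set.Icc (s j) (s j + ω / 2 * l) ⊆ Ex (T / 2) ∪ (Ex T ∪ Ex (2 * T)) := by
    intro j hj x hx
    obtain ⟨g1, g2, _⟩ := hs j hj
    have hj1 := (hB j hj).1
    have hj0 : 0 ≤ (j : ℝ) * l := by positivity
    have q1 : T / 2 ≤ x := by
      have := hx.1
      nlinarith
    have q2 : x ≤ 4 * T := by
      have := hx.2
      nlinarith
    rcases le_or_gt x T with h | h
    · exact Or.inl (hmem (T / 2) le_rfl (by linarith) j hj x hx q1 (by linarith))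
    · rcases le_or_gt x (2 * T) with h' | h'
      · exact Or.inr (Or.inl (hmem T (by linarith) (by linarith) j hj x hx h.le h'))
      · exact Or.inr (Or.inr (hmem (2 * T) (by linarith) le_rfl j hj x hx h'.le (by linarith)))
  have hE : volume (Ex (T / 2) ∪ (Ex T ∪ Ex (2 * T))) ≤ ENNReal.ofReal (7 / 2 * η' * T) := by
    refine (measure_union_le _ _).trans ?_
    refine (add_le_add (hvol (T / 2) (by linarith)) ((measure_union_le _ _).trans
      (add_le_add (hvol T (by linarith)) (hvol (2 * T) (by linarith))))).trans ?_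
    rw [← ENNReal.ofReal_add (by positivity) (by positivity),
      ← ENNReal.ofReal_add (by positivity) (by positivity)]
    apply ENNReal.ofReal_le_ofReal
    linarith
  have hmain := card_intervals B s (ω / 2 * l) K (7 / 2 * η' * T) (by positivity) hKpos.le
    (by positivity) _ hE hsub ?_
  · rw [hη'] at hmain
    have e : K * (7 / 2 * (η * ω / (7 * K)) * T) = η * T * (ω / 2) := by
      field_simp
    rw [e] at hmain
    have e2 : (B.card : ℝ) * (ω / 2 * l) = ((B.card : ℝ) * l) * (ω / 2) := by ring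
    rw [e2] at hmain
    exact le_of_mul_le_mul_right hmain (by positivity)
  · intro x F hF hx
    have := card_le_len F ((x - T - (5 + ω / 2) * l) / l) (9 + ω / 2) (by positivity) ?_
    · rw [hK]; linarith
    · intro j hj
      obtain ⟨g1, g2, _⟩ := hs j (hF hj)
      have h3 := hx j hj
      constructor
      · rw [div_le_iff₀ hlpos]
        have := h3.2
        linarith
      · have e : (x - T - (5 + ω / 2) * l) / l + (9 + ω / 2) = (x - T + 4 * l) / l := by
          field_simp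
          ring
        rw [e, le_div_iff₀ hlpos]
        have := h3.1
        linarith

end Pool.Agent.W916.BH
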